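import Mathlib
import Pool.Agent.Run7.h413.FN.ThreeSum

/-!
# 3SUM: networks over an arbitrary field whose gates share values

The input consists of `2 n` distinct integers of absolute value at most `(2 n) ^ 3` (`Valid`); is
one of them the sum of two others (`threeSum`)? The items of the input are each of the first `n`
numbers, and the list of the last `n` numbers.

*Networks* (`Net`). The nodes carry elements of an arbitrary field `K` (of any characteristic,
finite or infinite), and **the value of a node may be used by any number of other nodes**. The gates
are leaves (arbitrary functions with values in `K` of one item, or of `w` words of length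
`c log₂ (2 n)`, each of which is an arbitrary function of one item), weighted sums of any number of
inputs (`lin`), products of two inputs (`mul`), and gates `sym` of any fan-in, whose value is an
arbitrary function of the number of the inputs which are not zero (so `sym` contains zero tests,
threshold and parity gates of bits). A network accepts if the value of the output node is not zero.

*Parameters.* The number of the gates on a path is **not** bounded. The gates `sym` are nested at
most `t` times (`TestDepthLE`), and between them the formal degree is at most `g` (`DegreeLE`): the
degree of a product is at least the sum of the degrees of its factors; the degree of a leaf or of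
a gate `sym` may be one. So arithmetic circuits of any depth over `K` are included, for example
fast transforms and fast multiplication of matrices, whose inputs are arbitrary functions of one
number or of `w` words, and whose results are tested, and used again as inputs, `t` times.

*Cost.* For each of the first `n` numbers we count the leaves which see it, and the wires which
leave a node that depends on it (`traffic`). The cost is the sum of these numbers. So a wire pays
the number of those of the first `n` numbers on which its source depends; everything that depends
only on the last `n` numbers is free.

We show that random networks with error probability at most `1 / 3` have cost `s` with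
`n ^ 2 log₂ n ≤ 1100 (w c log₂ n + (t + 1) (log₂ n + log₂ g)) s`. So the cost is `n ^ (2 - o (1))`
if `w`, `c`, `t` and `log g` are `n ^ o (1)`, and at least of the order `n ^ 2` for constant `w`,
`c`, `t` and `g = n ^ O (1)`.

Proof. Each of the first `n` numbers can ask for about `n log₂ n / 7` bits which are encoded in the
list of the last `n` numbers (helper697). Fix all other items (Nechiporuk's method). If `r` leaves
and wires depend on the number, then the other items enter by at most `2 r` parameters in `K`: the
rest of a weighted sum, the other factor of a product, or the possible values of a gate `sym`.
Between two tests the values are polynomials of degree at most `g` in the parameters, whatever the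
depth is, and the theorem of Rónyai, Babai and Ganapathy on zero patterns bounds the number of the
results of all tests at the next level. So there are at most
`(q ^ (w - 1) (n ^ 5 g) ^ (2 (t + 1))) ^ r` functions of the number (`Run7.h413.FN.Core`,
`Run7.h413.FN.Sub`).
-/

set_option autoImplicit false

namespace Pool.Agent.Results.MP_13bec0_lc.FieldNetworks

open Pool.Agent.TH697.Form (IsProb)
open Pool.Agent.TH697.Row (ApproximatesOn)
open Pool.Agent.TH697.Form.ThreeSum (Item Valid threeSum)
open Run7.h413.FN (Net)
open Run7.h413.FN.ThreeSum (numbers)

theorem result : ∀ n c w t g : ℕ, 1000 ≤ n → 1 ≤ c → 1 ≤ w → 1 ≤ g →
    ∀ (K : Type) [Field K] (Ω : Type) [Fintype Ω] (μ : Ω → ℝ), IsProb μ →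
      ∀ (s : ℕ) (C : Ω → Net K (Option (Fin n)) (Item n n) w ((2 * n) ^ c)),
        (∀ ω, (C ω).TestDepthLE t) → (∀ ω, (C ω).DegreeLE g) →
        (∀ ω, (C ω).cost (numbers n) ≤ s) →
        ApproximatesOn μ (fun ω => (C ω).eval) (Valid n n) (threeSum n n) →
        (n : ℝ) ^ 2 * Real.logb 2 n ≤
          1100 * (w * c * Real.logb 2 n + (t + 1) * (Real.logb 2 n + Real.logb 2 g)) * s :=
  fun _ _ _ _ _ hn hc hw hg _ _ _ _ μ hμ s C hT hG hs hC =>
    Run7.h413.FN.ThreeSum.bound hn hc hw hg μ hμ s C hT hG hs hC

end Pool.Agent.Results.MP_13bec0_lc.FieldNetworks
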