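import Mathlib
import Pool.Agent.Run7.h413.MX.ThreeSum

/-!
# 3SUM: circuits over real formulas with maximum gates

The input consists of `2 n` distinct integers of absolute value at most `(2 n) ^ 3` (`Valid`); is
one of them the sum of two others (`threeSum`)? The items of the input are each of the first `n`
numbers, and the list of the last `n` numbers.

*Formulas* (`Fml`). The wires carry real numbers of unlimited precision. The leaves are arbitrary
real functions of one item, or of `w` words of length `c log₂ (2 n)`, each of which is an arbitrary
function of one item. The gates are sums, products, **maxima**, tests of the sign with two
arbitrary results (`test`), and gates `sym` of any fan-in whose value is an arbitrary function of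
the number of the positive inputs. Since constants are free, minima, rectified linear units `max
(x, 0)` and clipping are included: `min (x, y) = - max (- x, - y)`.

*Circuits* (`Circuit`) compute shared bits; each bit is the result of a branching program whose
tests are formulas, and the leaves may also read the bits computed before. A leaf which reads one
of the first `n` numbers pays one, readings of the list of the last `n` numbers are free, and a
reading of a shared bit costs the number of those of the first `n` numbers on which the bit
depends. The cost is the sum of these prices for all leaves, plus the number of inner nodes of the
branching programs, plus the number of wires which lead to gates `sym`. All other gates and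
constants are free.

We show that random circuits with error probability at most `1 / 3` have cost `s ≥ n ^ 2 / (20000
(w c + log₂ n))`.

Proof. Each of the first `n` numbers can ask for about `n log₂ n / 7` bits which are encoded in the
list of the last `n` numbers (helper697). We count the functions of this number which arise when
the other items are fixed (Nechiporuk's method). Without maxima a formula with `r` readings of the
number is, on each sign pattern, a polynomial in `O (r)` parameters, and Warren's theorem bounds
the number of sign patterns. A maximum of two subformulas with `r'` and `r''` readings multiplies
the numbers of their pieces, and this argument gives nothing. Here only the pieces of the lighter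
input of each gate are refined by means of Warren's theorem; a place is then refined at most `log₂
s` times, and the number of functions is `n ^ (O (r log s))` (`Run7.h413.MX.Cov`,
`Run7.h413.MX.Core`). The values of the shared bits are treated one after the other
(`Run7.h413.MX.Prog`).
-/

set_option autoImplicit false

namespace Pool.Agent.Results.MP_13bec0_lc.MaximumGates

open Pool.Agent.TH697.Form (IsProb)
open Pool.Agent.TH697.Row (ApproximatesOn)
open Pool.Agent.TH697.Form.ThreeSum (Item Valid threeSum)
open Run7.h413.MX (Circuit)
open Run7.h413.MX.ThreeSum (numbers)

theorem result : ∀ n c w : ℕ, 1000 ≤ n → 1 ≤ c → 1 ≤ w →
    ∀ (Ω : Type) [Fintype Ω] (μ : Ω → ℝ), IsProb μ →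
      ∀ (s : ℕ) (C : Ω → Circuit (Option (Fin n)) (Item n n) w ((2 * n) ^ c)),
        (∀ ω, (C ω).circ.cost (numbers n) ≤ s) →
        ApproximatesOn μ (fun ω => (C ω).eval) (Valid n n) (threeSum n n) →
        (n : ℝ) ^ 2 ≤ 20000 * (w * c + Real.logb 2 n) * s :=
  fun _ _ _ hn hc hw _ _ μ hμ s C hs hC =>
    Run7.h413.MX.ThreeSum.bound hn hc hw μ hμ s C hs hC

end Pool.Agent.Results.MP_13bec0_lc.MaximumGates
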