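import Mathlib
import Pool.Agent.Run7.h46.SP.ThreeSum

/-!
# 3SUM: span programs over finite fields which test real formulas

The input consists of `2 n` distinct integers of absolute value at most `(2 n) ^ 3` (`Valid`); is
one of them the sum of two others (`threeSum`)? The items of the input are each of the first `n`
numbers and the list of the other `n` numbers.

A real formula (`Fml`) is built from real constants, arbitrary real functions of one item, and
arbitrary real functions of `w` words of length `c log₂ (2 n)`, where each word is an arbitrary
function of one item, by sums, products, sign tests `pos`, and gates `sym` of any fan-in whose value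
is an arbitrary real function of the number of positive inputs. A span program (`SpanProgram`,
Karchmer and Wigderson 1993) over a finite field `K` has vectors of a space `K ^ dim`, each of which
is guarded by a real formula, a subspace of free vectors, and a target vector; it accepts the input if
the target is a linear combination of free vectors and of vectors whose guards accept the input. The
size is the number of the guarded vectors plus the sizes of the guards (leaves, and wires to gates
`sym`); the dimension and the free vectors are not counted. Undirected contact schemes over all
fields, and the parity and modular versions of branching programs (is the number of accepting paths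
nonzero in `K`) are span programs.

We show that random span programs (first the random choice) of size at most `s` which accept the
inputs with a solution, or which accept the inputs without a solution, with error probability at most
`1 / 3`, need `n ^ 2 ≤ 4000 w (√(log₂ |K| n) + 400 c w) s`, that is, size of order `n ^ (3 / 2)` for
every fixed field. (The algorithms of the question make no error at all.)

Proof. Each of the first `n` numbers can ask for about `n log₂ n / 7` bits which are encoded in
the other numbers (helper457, helper697; for the form `a + b = c` of 3SUM helper617). If `r` leaves
see an item, then for fixed other items the coefficients of the live vectors which complete a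
combination form an affine subspace of `K ^ r` or the empty set, so there are at most
`2 |K| ^ (r ^ 2 + r)` possibilities, and the guards take `2 ^ O (r log n)` different functions of the
item (Warren's bound, `Pool.Agent.Y638.RF.Core`); the rest is Nechiporuk's method with random
strings. The theorem on span programs (`Pool.Agent.Run7.h412.SP.Core`,
`Pool.Agent.Run7.h412.SP.Lower`) is due to helper412.
-/

set_option autoImplicit false

namespace Pool.Agent.Results.MP_13bec0_lc.SpanPrograms

open Pool.Agent.TH697.Form (IsProb)
open Pool.Agent.TH697.Row (ApproximatesOn)
open Pool.Agent.TH697.Form.ThreeSum (Item Valid threeSum)
open Pool.Agent.Run7.h412.SP (SpanProgram)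

theorem result : ∀ (K : Type) [Field K] [Fintype K] (n c w : ℕ), 1000 ≤ n → 1 ≤ c → 1 ≤ w →
    ∀ (Ω : Type) [Fintype Ω] (μ : Ω → ℝ), IsProb μ →
      ∀ (s : ℕ) (N : Ω → SpanProgram K (Option (Fin n)) (Item n n) w ((2 * n) ^ c)),
        (∀ ω, (N ω).size ≤ s) →
        (ApproximatesOn μ (fun ω => (N ω).eval) (Valid n n) (threeSum n n) ∨
          ApproximatesOn μ (fun ω x => !(N ω).eval x) (Valid n n) (threeSum n n)) →
        (n : ℝ) ^ 2 ≤ 4000 * w * (√(Real.logb 2 (Fintype.card K) * n) + 400 * c * w) * s :=
  fun _ _ _ _ _ _ hn hc hw _ _ μ hμ s N hs hN =>
    Run7.h46.SP.ThreeSum.bound hn hc hw μ hμ s N hs hN

end Pool.Agent.Results.MP_13bec0_lc.SpanPrograms
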